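import Pool.Agent.Helper60.LZ.St

/-!
# Project LZ (MP_5e9b96_nt), module GOO: splitting of the character sum
-/

set_option autoImplicit false

noncomputable section

namespace Pool.Agent.Helper21.LZ

open Finset
open Pool.Agent.Helper15.AB (StMT)
open Pool.Agent.Helper60.LZ

private def MM (y : ℕ) : ℝ := ∑ l ∈ (Icc 1 y).filter Nat.Prime, (1 : ℝ) / l

private theorem pwM {x w : ℕ} (hx : 14 ≤ x) (hw : x / 2 ≤ w) :
    ∑ l ∈ pw x w, (1 : ℝ) / l = MM w - MM (x / 2) := by
  have h : (Icc 1 w).filter Nat.Prime = (Icc 1 (x / 2)).filter Nat.Prime ∪ pw x w := by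
    ext l
    unfold pw
    simp only [mem_union, mem_filter, mem_Icc]
    constructor
    · rintro ⟨⟨h1, h2⟩, h3⟩
      by_cases h4 : l ≤ x / 2
      · exact Or.inl ⟨⟨h1, h4⟩, h3⟩
      · exact Or.inr ⟨⟨by omega, h2⟩, h3, by omega⟩
    · rintro (⟨⟨h1, h2⟩, h3⟩ | ⟨⟨h1, h2⟩, h3, h4⟩)
      · exact ⟨⟨h1, by omega⟩, h3⟩
      · exact ⟨⟨by omega, h2⟩, h3⟩
  have hd : Disjoint ((Icc 1 (x / 2)).filter Nat.Prime) (pw x w) := by
    rw [Finset.disjoint_left]
    intro l h1 h2
    unfold pw at h2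
    simp only [mem_filter, mem_Icc] at h1 h2
    omega
  unfold MM
  rw [h, sum_union hd]
  ring

private theorem split {x j0 : ℕ} (hx : 14 ≤ x) (h0 : x ≤ 2 ^ j0) (f : ℕ → ℝ) : ∀ J : ℕ, j0 ≤ J →
    ∑ l ∈ pw x (2 ^ J - 1), f l =
      ∑ l ∈ pw x (2 ^ j0 - 1), f l + ∑ j ∈ Ico j0 J, ∑ p ∈ bp j, f p := by
  intro J hJ
  induction J, hJ using Nat.le_induction with
  | base => simp
  | succ J hJ ih =>
    have hp : 2 ^ j0 ≤ 2 ^ J := Nat.pow_le_pow_right (by norm_num) hJ
    have hs : 2 ^ (J + 1) = 2 * 2 ^ J := by rw [pow_succ]; ring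
    have h : pw x (2 ^ (J + 1) - 1) = pw x (2 ^ J - 1) ∪ bp J := by
      ext l
      unfold pw bp
      simp only [mem_union, mem_filter, mem_Icc, mem_Ico]
      rw [hs]
      constructor
      · rintro ⟨⟨h1, h2⟩, h3, h4⟩
        by_cases h5 : l < 2 ^ J
        · exact Or.inl ⟨⟨h1, by omega⟩, h3, h4⟩
        · exact Or.inr ⟨⟨by omega, by omega⟩, h3⟩
      · rintro (⟨⟨h1, h2⟩, h3, h4⟩ | ⟨⟨h1, h2⟩, h3⟩)
        · exact ⟨⟨h1, by omega⟩, h3, h4⟩
        · exact ⟨⟨by omega, by omega⟩, h3, by omega⟩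
    have hd : Disjoint (pw x (2 ^ J - 1)) (bp J) := by
      rw [Finset.disjoint_left]
      intro l h1 h2
      unfold pw at h1
      unfold bp at h2
      simp only [mem_filter, mem_Icc, mem_Ico] at h1 h2
      omega
    rw [h, sum_union hd, ih, Finset.sum_Ico_succ_top hJ]
    ring

private theorem js_le (t l : ℕ) : |js t l| ≤ 1 := by
  unfold js
  rcases jacobiSym.trichotomy ((t : ℤ) ^ 2 - 4) l with h | h | h <;> rw [h] <;> norm_num

private theorem js_div (t l : ℕ) : -(js t l / l) ≤ 1 / l := by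
  have h1 := js_le t l
  have h2 : (0 : ℝ) ≤ l := Nat.cast_nonneg l
  rw [← neg_div]
  have h3 : -js t l ≤ 1 := by
    have := neg_abs_le (js t l)
    linarith
  exact div_le_div_of_nonneg_right h3 h2

private theorem loglog_le {y : ℕ} {z : ℝ} (hy : 3 ≤ y) (hz : 0 < z) (h : Real.log y ≤ z) :
    Real.log (Real.log y) ≤ Real.log z := by
  have h1 : 0 < Real.log y := Real.log_pos (by exact_mod_cast (by omega : 1 < y))
  exact Real.log_le_log h1 h

theorem hGOO (hM : StMT) : StGOO := by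
  obtain ⟨C0, hC0, hM⟩ := hM
  have hMM : ∀ y : ℕ, 3 ≤ y → |MM y - Real.log (Real.log y)| ≤ C0 := by
    intro y hy
    have h := hM (y : ℝ) (by exact_mod_cast hy)
    rw [Nat.floor_natCast] at h
    exact h
  refine ⟨4 * C0 + Real.log 80 + Real.log 2, by
    have h1 : 0 < Real.log 80 := Real.log_pos (by norm_num)
    have h2 : 0 < Real.log 2 := Real.log_pos (by norm_num)
    linarith, ?_⟩
  intro x t j0 j1 J hx h0 h40 h01 h1J
  have hl2 : 0 < Real.log 2 := Real.log_pos (by norm_num)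
  have hl80 : 0 < Real.log 80 := Real.log_pos (by norm_num)
  have hxr : (14 : ℝ) ≤ x := by exact_mod_cast hx
  have hlx : 0 < Real.log x := Real.log_pos (by linarith)
  have hj4 : 4 ≤ j0 := by
    by_contra hc
    have h1 : j0 ≤ 3 := by omega
    have h2 : 2 ^ j0 ≤ 2 ^ 3 := Nat.pow_le_pow_right (by norm_num) h1
    omega
  have hp0 : 16 ≤ 2 ^ j0 := by
    calc 16 = 2 ^ 4 := by norm_num
      _ ≤ 2 ^ j0 := Nat.pow_le_pow_right (by norm_num) hj4
  have hp1 : 2 ^ j0 ≤ 2 ^ j1 := Nat.pow_le_pow_right (by norm_num) h01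
  have hpJ : 2 ^ j1 ≤ 2 ^ J := Nat.pow_le_pow_right (by norm_num) h1J
  -- first part
  have hA : ∑ l ∈ pw x (2 ^ j0 - 1), (1 : ℝ) / l ≤ 2 * C0 + Real.log 80 := by
    rw [pwM hx (by omega)]
    have e1 := (abs_le.1 (hMM (2 ^ j0 - 1) (by omega))).2
    have e2 := (abs_le.1 (hMM (x / 2) (by omega))).1
    have e3 : Real.log (Real.log ((2 ^ j0 - 1 : ℕ) : ℝ)) ≤ Real.log (40 * Real.log x) := by
      apply loglog_le (by omega) (by positivity)
      have e4 : ((2 ^ j0 - 1 : ℕ) : ℝ) ≤ (x : ℝ) ^ 40 := by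
        exact_mod_cast (by omega : 2 ^ j0 - 1 ≤ x ^ 40)
      have e5 : (0 : ℝ) < ((2 ^ j0 - 1 : ℕ) : ℝ) := by exact_mod_cast (by omega : 0 < 2 ^ j0 - 1)
      have e6 := Real.log_le_log e5 e4
      rwa [Real.log_pow, Nat.cast_ofNat] at e6
    have e7 : Real.log (Real.log x / 2) ≤ Real.log (Real.log ((x / 2 : ℕ) : ℝ)) := by
      apply Real.log_le_log (by positivity)
      have e8 : (x : ℝ) ≤ ((x / 2 : ℕ) : ℝ) ^ 2 := by
        have e9 : x ≤ (x / 2) ^ 2 := by
          have e10 : x ≤ 2 * (x / 2) + 1 := by omega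
          have e11 : 7 ≤ x / 2 := by omega
          nlinarith
        exact_mod_cast e9
      have e12 := Real.log_le_log (by linarith) e8
      rw [Real.log_pow] at e12
      push_cast at e12
      linarith
    rw [Real.log_mul (by norm_num) hlx.ne'] at e3
    rw [Real.log_div hlx.ne' (by norm_num)] at e7
    have e13 : Real.log 80 = Real.log 40 + Real.log 2 := by
      rw [← Real.log_mul (by norm_num) (by norm_num)]; norm_num
    linarith
  have hA' : -∑ l ∈ pw x (2 ^ j0 - 1), js t l / l ≤ 2 * C0 + Real.log 80 := by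
    refine le_trans ?_ hA
    rw [← sum_neg_distrib]
    exact sum_le_sum fun l _ => js_div t l
  have hsp := split hx h0 (fun l => js t l / l) J (h01.trans h1J)
  have hbl : ∀ j, ∑ p ∈ bp j, (fun l : ℕ => js t l / l) p = bl t j := fun j => rfl
  simp only [hbl] at hsp
  have hneg : ∀ s : Finset ℕ, -∑ j ∈ s, bl t j ≤ ∑ j ∈ s, |bl t j| := by
    intro s
    rw [← sum_neg_distrib]
    exact sum_le_sum fun j _ => neg_le_abs _
  constructor
  · rw [hsp]
    have h := hneg (Ico j0 J)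
    linarith
  · rw [hsp, ← Finset.sum_Ico_consecutive (fun j => bl t j) h01 h1J]
    have h := hneg (Ico j0 j1)
    have hB : -∑ j ∈ Ico j1 J, bl t j ≤ 2 * C0 + Real.log 2 + Real.log (J / j1) := by
      have s1 := split hx (h0.trans hp1) (fun l => (1 : ℝ) / l) J h1J
      have s2 : -∑ j ∈ Ico j1 J, bl t j ≤ ∑ j ∈ Ico j1 J, ∑ p ∈ bp j, (1 : ℝ) / p := by
        rw [← sum_neg_distrib]
        refine sum_le_sum fun j _ => ?_
        unfold bl
        rw [← sum_neg_distrib]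
        exact sum_le_sum fun l _ => js_div t l
      rw [pwM hx (by omega), pwM hx (by omega)] at s1
      have e1 := (abs_le.1 (hMM (2 ^ J - 1) (by omega))).2
      have e2 := (abs_le.1 (hMM (2 ^ j1 - 1) (by omega))).1
      have hJ0 : (0 : ℝ) < J := by exact_mod_cast (by omega : 0 < J)
      have hj0 : (0 : ℝ) < j1 := by exact_mod_cast (by omega : 0 < j1)
      have e3 : Real.log (Real.log ((2 ^ J - 1 : ℕ) : ℝ)) ≤ Real.log (J * Real.log 2) := by
        apply loglog_le (by omega) (by positivity)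
        have e4 : ((2 ^ J - 1 : ℕ) : ℝ) ≤ (2 : ℝ) ^ J := by
          exact_mod_cast (by omega : 2 ^ J - 1 ≤ 2 ^ J)
        have e5 : (0 : ℝ) < ((2 ^ J - 1 : ℕ) : ℝ) := by exact_mod_cast (by omega : 0 < 2 ^ J - 1)
        have e6 := Real.log_le_log e5 e4
        rwa [Real.log_pow] at e6
      have e7 : Real.log (j1 * Real.log 2 / 2) ≤ Real.log (Real.log ((2 ^ j1 - 1 : ℕ) : ℝ)) := by
        apply Real.log_le_log (by positivity)
        have e8 : (2 : ℝ) ^ j1 ≤ ((2 ^ j1 - 1 : ℕ) : ℝ) ^ 2 := by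
          have e9 : 2 ^ j1 ≤ (2 ^ j1 - 1) ^ 2 := by
            obtain ⟨u, hu⟩ : ∃ u, 2 ^ j1 = u + 1 := ⟨2 ^ j1 - 1, by omega⟩
            rw [hu, Nat.add_sub_cancel]
            have e11 : 15 ≤ u := by omega
            nlinarith
          exact_mod_cast e9
        have e12 := Real.log_le_log (by positivity) e8
        rw [Real.log_pow, Real.log_pow, Nat.cast_ofNat] at e12
        linarith
      rw [Real.log_mul hJ0.ne' hl2.ne'] at e3
      rw [Real.log_div (by positivity) (by norm_num), Real.log_mul hj0.ne' hl2.ne'] at e7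
      rw [Real.log_div hJ0.ne' hj0.ne']
      linarith
    linarith

end Pool.Agent.Helper21.LZ
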